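import Pool.Agent.H.MP_2e34cc_co.A

set_option autoImplicit false

namespace Pool.Agent.Results.MP_89b4a2_co.Den

open PowerSeries

/-- The polynomial ring in `a, b, c, q` and its fraction field. -/
abbrev R := MvPolynomial (Fin 4) ℤ
abbrev K := FractionRing R

noncomputable def a : K := algebraMap R K (MvPolynomial.X 0)
noncomputable def b : K := algebraMap R K (MvPolynomial.X 1)
noncomputable def c : K := algebraMap R K (MvPolynomial.X 2)
noncomputable def q : K := algebraMap R K (MvPolynomial.X 3)

noncomputable def poch (x : K) (n : ℕ) : K := ∏ j ∈ Finset.range n, (1 - x * q ^ j)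

/-- The basic hypergeometric series in `z`. -/
noncomputable def phi (x y z : K) : K⟦X⟧ :=
  PowerSeries.mk fun n => poch x n * poch y n / (poch q n * poch z n)

noncomputable def D (n : ℕ) : K := ∏ k ∈ Finset.range (n + 1), (1 - c * q ^ k) ^ ((n + 1) / (k + 1))

noncomputable def γ (n : ℕ) : K := coeff n (phi (a * q) b (c * q) * (phi a b c)⁻¹)

open Pool.Agent.H.MP_2e34cc_co in
theorem result : ∀ n : ℕ, ∃ P : R, D n * γ n = (1 - c) * algebraMap R K P := by
  intro n
  have h0 := mem1 (hne 3) (hne 2) _ (poly_mem _ _) (poly_mem _ _) i1 n (v 0) (poly_mem _ _) (v 1)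
    (poly_mem _ _) 0
  rw [pow_zero, mul_one] at h0
  obtain ⟨P, hP⟩ := final (v 0 * v 3) (v 1)
    (Subring.mul_mem _ (poly_mem _ _) (poly_mem _ _)) (poly_mem _ _) n h0
  have hc : 1 - c ≠ 0 := by have := hne 2 0; rwa [pow_zero, mul_one] at this
  have h : D n * γ n / (1 - c) = algebraMap R K P := hP
  exact ⟨P, by rw [← h, mul_div_cancel₀ _ hc]⟩

end Pool.Agent.Results.MP_89b4a2_co.Den
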